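import Mathlib
import Pool.Agent.R259.M5e

set_option autoImplicit false

namespace Pool.Agent.Results.MP_5e2fde_an.AllExponents

open Polynomial Filter Topology

/-- The function `F_{s,m}(x) = ∑ k^s x^k / (k!)^m` (note `0 ^ s = 0` for `s > 0`). -/
noncomputable def F (s : ℝ) (m : ℕ) (x : ℂ) : ℂ :=
  ∑' k : ℕ, (((k : ℝ) ^ s / (k.factorial : ℝ) ^ m : ℝ) : ℂ) * x ^ k

/-- The Laguerre-Polya class: limits, uniformly on compact sets, of real polynomials with only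
real zeros. -/
def IsLP (f : ℂ → ℂ) : Prop :=
  ∃ p : ℕ → ℝ[X], (∀ n, ∀ z : ℂ, aeval z (p n) = 0 → z.im = 0) ∧
    ∀ K : Set ℂ, IsCompact K → TendstoUniformlyOn (fun n z => aeval z (p n)) f atTop K

/-- The functions of the Laguerre-Polya class whose Taylor coefficients at `0` are nonnegative. -/
def IsLPplus (f : ℂ → ℂ) : Prop :=
  IsLP f ∧ ∀ k : ℕ, ∃ a : ℝ, 0 ≤ a ∧ iteratedDeriv k f 0 / (k.factorial : ℂ) = (a : ℂ)

/-- For every real `s > 0` and every integer `m ≥ 3`, `F_{s,m}` belongs to `L-P^+`. -/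
theorem result : ∀ s : ℝ, 0 < s → ∀ m : ℕ, 3 ≤ m → IsLPplus (F s m) := by
  intro s hs m hm
  obtain ⟨p, h1, h2, h3⟩ := Pool.Agent.R259.lpm hs hm
  have hL : Pool.Agent.R259.LPL (F s m) p := ⟨fun N => (h1 N).1, h3⟩
  refine ⟨⟨p, fun n z hz => Pool.Agent.R259.splits_zeros (h1 n).1 (h1 n).2 hz, fun K hK => ?_⟩,
    fun k => ⟨(k : ℝ) ^ s / (k.factorial : ℝ) ^ m, by positivity, ?_⟩⟩
  · exact (tendstoLocallyUniformlyOn_iff_forall_isCompact isOpen_univ).1 h3 K (Set.subset_univ K) hK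
  · rw [hL.iter_zero k (h2 k)]
    have : (k.factorial : ℂ) ≠ 0 := by exact_mod_cast Nat.factorial_ne_zero k
    push_cast
    field_simp

end Pool.Agent.Results.MP_5e2fde_an.AllExponents
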